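import Pool.Agent.H4.SE.Targets

/-!
# Board sae, module IL: the edges of one label and the others

Induction on a set `J` of labels: the entropy of the values of the words, the positions at `k` pins
and the starting points of the edges with label in `J` is at least
`AA k + ∑ i ∈ J, rho (k + card J) (tails of the edges of label i)`.
-/

set_option autoImplicit false

open Finset Equiv
open scoped Classical

namespace Pool.Agent.H47.SE4IL

open Pool.Agent.H4.SE

/-! ### entropies of functions on larger spaces -/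

theorem fibc {Ω Ω' Γ : Type} [Fintype Ω'] [Fintype Γ] (e : Ω' ≃ Ω × Γ) (x : Ω) :
    (univ.filter fun y => (e y).1 = x).card = Fintype.card Γ := by
  rw [← Finset.card_univ]
  apply Finset.card_bij (fun y _ => (e y).2)
  · simp
  · intro a ha b hb h
    rw [mem_filter] at ha hb
    exact e.injective (Prod.ext (ha.2.trans hb.2.symm) h)
  · intro b _
    exact ⟨e.symm (x, b), by simp, by simp⟩

theorem ent_fst (hEP : T_EP) {Ω Ω' Γ α : Type} [Fintype Ω] [Fintype Ω'] [Fintype Γ] [Nonempty Γ]
    (e : Ω' ≃ Ω × Γ) (f : Ω → α) : ent (fun y => f (e y).1) = ent f :=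
  hEP Ω Ω' α (fun y => (e y).1) (Fintype.card Γ) Fintype.card_pos (fibc e) f

theorem card_fibre {Ω Ω' Γ : Type} [Fintype Ω'] [Fintype Γ] (π : Ω' → Ω) (x : Ω) (g : Γ → Ω')
    (hg : Function.Injective g) (h1 : ∀ b, π (g b) = x) (h2 : ∀ y, π y = x → ∃ b, g b = y) :
    (univ.filter fun y => π y = x).card = Fintype.card Γ := by
  rw [← Finset.card_univ]
  symm
  apply Finset.card_bij (fun b _ => g b)
  · intro b _
    rw [mem_filter]
    exact ⟨mem_univ _, h1 b⟩
  · intro a _ b _ h
    exact hg h
  · intro y hy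
    rw [mem_filter] at hy
    obtain ⟨b, hb⟩ := h2 y hy.2
    exact ⟨b, mem_univ _, hb⟩

theorem ent_congr (hEM : T_EM) {Ω α α' : Type} [Fintype Ω] (f : Ω → α) (g : Ω → α')
    (h : ∀ x y, f x = f y ↔ g x = g y) : ent f = ent g :=
  le_antisymm (hEM Ω α' α g f fun x y => (h x y).2) (hEM Ω α α' f g fun x y => (h x y).1)

variable {r d : ℕ} (T : Fin d → List (Fin r × Bool))

/-! ### positions at tails of edges (as in module RI) -/

theorem key {β : Type} {σ σ' : Fin r → Perm β} {j : Fin d} (hW : W T σ j = W T σ' j) {m : ℕ}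
    (ν ν' : β) : pos T σ ν (vt T (j, m)) = pos T σ' ν' (vt T (j, m)) ↔
      (pp σ (T j) m)⁻¹ ν = (pp σ' (T j) m)⁻¹ ν' := by
  by_cases h0 : m = 0
  · subst h0
    unfold vt
    rw [if_pos (Or.inl rfl)]
    rfl
  · by_cases h1 : m = (T j).length
    · have hv : vt T (j, m) = none := by
        unfold vt
        rw [if_pos (Or.inr h1)]
      rw [hv, h1]
      have h2 : pp σ (T j) (T j).length = pp σ' (T j) (T j).length := hW
      rw [h2]
      exact ⟨fun h => congrArg _ h, fun h => (pp σ' (T j) (T j).length)⁻¹.injective h⟩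
    · have hv : vt T (j, m) = some (j, m) := by
        unfold vt
        rw [if_neg (by simp only [not_or]; exact ⟨h0, h1⟩)]
      rw [hv]
      rfl

theorem tl_eq (e : Fin d × ℕ) : tl T e = vt T (e.1, rt T e) := by
  unfold tl rt
  split_ifs <;> rfl

/-- edges with a given label -/
theorem mem_Ei {i : Fin r} {e : Fin d × ℕ} : e ∈ Ei T i ↔ lb T e = some i := by
  unfold Ei EE
  rw [mem_filter, mem_filter, mem_product, mem_range]
  constructor
  · intro h
    exact h.2
  · intro h
    have h1 : e.2 < (T e.1).length := by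
      by_contra hlt
      unfold lb at h
      rw [List.getElem?_eq_none (not_lt.1 hlt)] at h
      simp at h
    have h2 : (T e.1).length ≤ ∑ j, (T j).length :=
      Finset.single_le_sum (f := fun j => (T j).length) (fun _ _ => Nat.zero_le _) (mem_univ e.1)
    exact ⟨⟨⟨mem_univ _, lt_of_lt_of_le h1 h2⟩, h1⟩, h⟩

/-! ### the starting points of the edges with label in `J` -/

/-- the starting points of the edges with label in `J` -/
noncomputable def RJ {k : ℕ} {β : Type} (J : Finset (Fin r)) (x : Om r k β × (Fin r → β)) :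
    Fin d × ℕ → Fin r → Option β :=
  fun e i => if i ∈ J ∧ lb T e = some i then some ((pp x.1.1 (T e.1) (rt T e))⁻¹ (x.2 i)) else none

theorem RJ_eq {k : ℕ} {β : Type} (J : Finset (Fin r)) (x y : Om r k β × (Fin r → β)) :
    RJ T J x = RJ T J y ↔ ∀ i ∈ J, ∀ e, lb T e = some i →
      (pp x.1.1 (T e.1) (rt T e))⁻¹ (x.2 i) = (pp y.1.1 (T e.1) (rt T e))⁻¹ (y.2 i) := by
  constructor
  · intro h i hi e he
    have h1 := congrFun (congrFun h e) i
    unfold RJ at h1
    rw [if_pos ⟨hi, he⟩, if_pos ⟨hi, he⟩] at h1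
    exact Option.some.inj h1
  · intro h
    funext e i
    unfold RJ
    by_cases hc : i ∈ J ∧ lb T e = some i
    · rw [if_pos hc, if_pos hc, h i hc.1 e hc.2]
    · rw [if_neg hc, if_neg hc]

/-- the starting points of the edges of label `i` for the point `v` -/
noncomputable def R1 {k : ℕ} {β : Type} (i : Fin r) (y : Om r k β × β) : Fin d × ℕ → Option β :=
  fun e => if lb T e = some i then some ((pp y.1.1 (T e.1) (rt T e))⁻¹ y.2) else none

theorem R1_eq {k : ℕ} {β : Type} (i : Fin r) (x y : Om r k β × β) :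
    R1 T i x = R1 T i y ↔ ∀ e, lb T e = some i →
      (pp x.1.1 (T e.1) (rt T e))⁻¹ x.2 = (pp y.1.1 (T e.1) (rt T e))⁻¹ y.2 := by
  constructor
  · intro h e he
    have h1 := congrFun h e
    unfold R1 at h1
    rw [if_pos he, if_pos he] at h1
    exact Option.some.inj h1
  · intro h
    funext e
    unfold R1
    by_cases hc : lb T e = some i
    · rw [if_pos hc, if_pos hc, h e hc]
    · rw [if_neg hc, if_neg hc]

/-- splitting the points at `i` -/
def spl {Ω β : Type} (i : Fin r) : Ω × (Fin r → β) ≃ (Ω × β) × ({j : Fin r // j ≠ i} → β) where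
  toFun y := ((y.1, y.2 i), fun j => y.2 j.1)
  invFun z := (z.1.1, fun j => if h : j = i then z.1.2 else z.2 ⟨j, h⟩)
  left_inv y := by
    refine Prod.ext rfl ?_
    funext j
    by_cases h : j = i
    · subst h
      simp
    · simp [h]
  right_inv z := by
    refine Prod.ext (Prod.ext rfl ?_) ?_
    · simp
    · funext j
      simp [j.2]

theorem ent_one1 (hEM : T_EM) (k : ℕ) (β : Type) [Fintype β] [DecidableEq β] (i : Fin r) :
    ent (fun y : Om r k β × β => (WQ T y.1, R1 T i y)) =
      ent (fun x : Om r k β × β =>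
        (WQ T x.1, fun a : ((Ei T i).image (tl T)) => pos T x.1.1 x.2 a.1)) := by
  apply ent_congr hEM
  intro x y
  have hk : WQ T x.1 = WQ T y.1 → ∀ e : Fin d × ℕ,
      (pos T x.1.1 x.2 (tl T e) = pos T y.1.1 y.2 (tl T e) ↔
      (pp x.1.1 (T e.1) (rt T e))⁻¹ x.2 = (pp y.1.1 (T e.1) (rt T e))⁻¹ y.2) := by
    intro h e
    rw [tl_eq T e]
    exact key T (congrFun (Prod.mk.inj h).1 e.1) x.2 y.2
  constructor
  · intro h
    obtain ⟨ha, hb⟩ := Prod.mk.inj h
    refine Prod.ext ha ?_
    funext a
    obtain ⟨e, he, hea⟩ := mem_image.1 a.2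
    show pos T x.1.1 x.2 a.1 = pos T y.1.1 y.2 a.1
    rw [← hea]
    apply (hk ha e).2
    exact (R1_eq T i x y).1 hb e ((mem_Ei T).1 he)
  · intro h
    obtain ⟨ha, hb⟩ := Prod.mk.inj h
    refine Prod.ext ha ?_
    apply (R1_eq T i x y).2
    intro e he
    apply (hk ha e).1
    exact congrFun hb ⟨tl T e, mem_image_of_mem (tl T) ((mem_Ei T).2 he)⟩

/-- one label: the entropy is given by `rho` -/
theorem ent_one (hEM : T_EM) (hEP : T_EP) (k : ℕ) (β : Type) [Fintype β] [DecidableEq β]
    [Nonempty β] (i : Fin r) :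
    ent (fun x : Om r k β × (Fin r → β) => (WQ T x.1, RJ T {i} x))
      = rho T k β ((Ei T i).image (tl T)) + AA T k β := by
  have h1 := ent_fst hEP (spl (Ω := Om r k β) (β := β) i)
    (fun y : Om r k β × β => (WQ T y.1, R1 T i y))
  have h2 : ent (fun x : Om r k β × (Fin r → β) => (WQ T x.1, RJ T {i} x)) =
      ent (fun x : Om r k β × (Fin r → β) =>
        (WQ T (spl i x).1.1, R1 T i (spl i x).1)) := by
    apply ent_congr hEM
    intro x y
    have hR : RJ T {i} x = RJ T {i} y ↔ R1 T i (spl i x).1 = R1 T i (spl i y).1 := by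
      rw [RJ_eq, R1_eq]
      constructor
      · intro h e he
        exact h i (mem_singleton_self i) e he
      · intro h i' hi' e he
        rw [mem_singleton] at hi'
        subst hi'
        exact h e he
    constructor
    · intro h
      obtain ⟨ha, hb⟩ := Prod.mk.inj h
      exact Prod.ext ha (hR.1 hb)
    · intro h
      obtain ⟨ha, hb⟩ := Prod.mk.inj h
      exact Prod.ext ha (hR.2 hb)
  rw [h2, h1, ent_one1 T hEM]
  unfold rho
  ring

/-! ### one more pin -/

/-- the pin `0` becomes the point with label `i` -/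
def pr {k : ℕ} {β : Type} (i : Fin r) (y : Om r (k + 1) β × (Fin r → β)) :
    Om r k β × (Fin r → β) :=
  ((y.1.1, fun m => y.1.2 m.succ), Function.update y.2 i (y.1.2 0))

theorem ent_pr (hEP : T_EP) {k : ℕ} {β α : Type} [Fintype β] [DecidableEq β] [Nonempty β]
    (i : Fin r) (F : Om r k β × (Fin r → β) → α) :
    ent (fun y : Om r (k + 1) β × (Fin r → β) => F (pr i y)) = ent F := by
  apply hEP _ _ α (pr i) (Fintype.card β) Fintype.card_pos
  intro x
  apply card_fibre (pr i) x (fun b : β =>
    (((x.1.1, Fin.cons (x.2 i) x.1.2), Function.update x.2 i b) : Om r (k + 1) β × (Fin r → β)))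
  · intro a b h
    have h1 : Function.update x.2 i a = Function.update x.2 i b := congrArg Prod.snd h
    have h2 := congrFun h1 i
    rwa [Function.update_self, Function.update_self] at h2
  · intro b
    refine Prod.ext (Prod.ext rfl rfl) ?_
    show Function.update (Function.update x.2 i b) i (x.2 i) = x.2
    rw [Function.update_idem, Function.update_eq_self]
  · intro y hy
    subst hy
    refine ⟨y.2 i, ?_⟩
    refine Prod.ext (Prod.ext rfl ?_) ?_
    · funext m
      refine Fin.cases ?_ (fun m => ?_) m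
      · show Function.update y.2 i (y.1.2 0) i = y.1.2 0
        rw [Function.update_self]
      · rfl
    · show Function.update (Function.update y.2 i (y.1.2 0)) i (y.2 i) = y.2
      rw [Function.update_idem, Function.update_eq_self]

theorem WQ_pr {k : ℕ} {β : Type} (i : Fin r) (x y : Om r (k + 1) β × (Fin r → β)) :
    WQ T x.1 = WQ T y.1 ↔ pat T x.1.1 (x.1.2 0) = pat T y.1.1 (y.1.2 0) ∧
      WQ T (pr i x).1 = WQ T (pr i y).1 := by
  constructor
  · intro h
    obtain ⟨h1, h2⟩ := Prod.mk.inj h
    exact ⟨congrFun h2 0, Prod.ext h1 (funext fun m => congrFun h2 m.succ)⟩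
  · rintro ⟨h1, h2⟩
    obtain ⟨h3, h4⟩ := Prod.mk.inj h2
    refine Prod.ext h3 ?_
    funext m
    refine Fin.cases ?_ (fun m => ?_) m
    · exact h1
    · exact congrFun h4 m

/-- the induction -/
theorem main (hEM : T_EM) (hES : T_ES) (hEP : T_EP) (hRM : T_RM) (β : Type) [Fintype β]
    [DecidableEq β] [Nonempty β] (J : Finset (Fin r)) : ∀ k : ℕ,
    AA T k β + ∑ i ∈ J, rho T (k + J.card) β ((Ei T i).image (tl T)) ≤
      ent (fun x : Om r k β × (Fin r → β) => (WQ T x.1, RJ T J x)) := by
  have hRM' : ∀ (A : Finset (Option (Fin d × ℕ))) (k n : ℕ), rho T (k + n) β A ≤ rho T k β A := by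
    intro A k n
    induction n with
    | zero => exact le_refl _
    | succ n ih => exact le_trans (hRM r d T (k + n) β A) ih
  induction J using Finset.induction_on with
  | empty =>
    intro k
    rw [sum_empty, add_zero]
    have h1 : ent (fun x : Om r k β × (Fin r → β) => WQ T x.1) = AA T k β :=
      ent_fst hEP (Equiv.refl (Om r k β × (Fin r → β))) (fun ω : Om r k β => WQ T ω)
    rw [← h1]
    exact hEM _ _ _ _ _ fun x y h => (Prod.mk.inj h).1
  | insert i J hi ih =>
    intro k
    have hS := hES (Om r k β × (Fin r → β)) (Fin d × ℕ → Fin r → Option β) (Fin d → ℕ → β)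
      (((Fin d → Perm β) × (Fin k → Fin d → ℕ → β)) × (Fin d × ℕ → Fin r → Option β))
      (fun x => RJ T J x) (fun x => pat T x.1.1 (x.2 i)) (fun x => (WQ T x.1, RJ T {i} x))
    -- the four entropies
    have h1 : ent (fun x : Om r k β × (Fin r → β) => (RJ T J x, (WQ T x.1, RJ T {i} x)))
        ≤ ent (fun x : Om r k β × (Fin r → β) => (WQ T x.1, RJ T (insert i J) x)) := by
      apply hEM
      intro x y h
      obtain ⟨ha, hb⟩ := Prod.mk.inj h
      have hb' := (RJ_eq T (insert i J) x y).1 hb
      refine Prod.ext ?_ (Prod.ext ha ?_)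
      · exact (RJ_eq T J x y).2 fun i' hi' => hb' i' (mem_insert_of_mem hi')
      · apply (RJ_eq T {i} x y).2
        intro i' hi'
        rw [mem_singleton] at hi'
        rw [hi']
        exact hb' i (mem_insert_self _ _)
    have h2 := ent_one T hEM hEP k β i
    have h3 : ent (fun x : Om r k β × (Fin r → β) =>
        (pat T x.1.1 (x.2 i), (WQ T x.1, RJ T {i} x))) ≤ AA T (k + 1) β := by
      have e1 : ent (fun x : Om r (k + 1) β × (Fin r → β) => WQ T x.1) = AA T (k + 1) β :=
        ent_fst hEP (Equiv.refl (Om r (k + 1) β × (Fin r → β))) (fun ω : Om r (k + 1) β => WQ T ω)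
      rw [← e1, ← ent_pr hEP i (fun x : Om r k β × (Fin r → β) =>
        (pat T x.1.1 (x.2 i), (WQ T x.1, RJ T {i} x)))]
      apply hEM
      intro x y h
      obtain ⟨ha, hb⟩ := (WQ_pr T i x y).1 h
      have hc : ∀ z : Om r (k + 1) β × (Fin r → β), (pr i z).2 i = z.1.2 0 := fun z =>
        Function.update_self _ _ _
      refine Prod.ext ?_ (Prod.ext hb ?_)
      · show pat T x.1.1 ((pr i x).2 i) = pat T y.1.1 ((pr i y).2 i)
        rw [hc, hc]
        exact ha
      · apply (RJ_eq T {i} (pr i x) (pr i y)).2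
        intro i' hi' e _
        rw [mem_singleton] at hi'
        rw [hi', hc, hc]
        exact congrFun (congrFun ha e.1) (rt T e)
    have h4 : AA T (k + 1) β + ∑ i ∈ J, rho T (k + 1 + J.card) β ((Ei T i).image (tl T)) ≤
        ent (fun x : Om r k β × (Fin r → β) =>
        (RJ T J x, pat T x.1.1 (x.2 i), (WQ T x.1, RJ T {i} x))) := by
      refine le_trans (ih (k + 1)) ?_
      rw [← ent_pr hEP i (fun x : Om r k β × (Fin r → β) =>
        (RJ T J x, pat T x.1.1 (x.2 i), (WQ T x.1, RJ T {i} x)))]
      apply hEM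
      intro x y h
      obtain ⟨ha, hb⟩ := Prod.mk.inj h
      obtain ⟨hb, hc⟩ := Prod.mk.inj hb
      have hu : ∀ z : Om r (k + 1) β × (Fin r → β), (pr i z).2 i = z.1.2 0 := fun z =>
        Function.update_self _ _ _
      refine Prod.ext ?_ ?_
      · apply (WQ_pr T i x y).2
        refine ⟨?_, (Prod.mk.inj hc).1⟩
        have hb' : pat T x.1.1 ((pr i x).2 i) = pat T y.1.1 ((pr i y).2 i) := hb
        rw [hu, hu] at hb'
        exact hb'
      · apply (RJ_eq T J x y).2
        intro i' hi' e he
        have h5 := (RJ_eq T J (pr i x) (pr i y)).1 ha i' hi' e he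
        have hne : i' ≠ i := by
          rintro rfl
          exact hi hi'
        have h6 : ∀ z : Om r (k + 1) β × (Fin r → β), (pr i z).2 i' = z.2 i' := fun z =>
          Function.update_of_ne hne _ _
        rw [h6, h6] at h5
        exact h5
    rw [sum_insert hi, card_insert_of_notMem hi]
    have h5 : rho T (k + (J.card + 1)) β ((Ei T i).image (tl T)) ≤
        rho T k β ((Ei T i).image (tl T)) := hRM' _ _ _
    have h6 : ∀ i, rho T (k + (J.card + 1)) β ((Ei T i).image (tl T))
        = rho T (k + 1 + J.card) β ((Ei T i).image (tl T)) := by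
      intro i
      rw [show k + (J.card + 1) = k + 1 + J.card by omega]
    have h7 : ∑ i ∈ J, rho T (k + (J.card + 1)) β ((Ei T i).image (tl T))
        = ∑ i ∈ J, rho T (k + 1 + J.card) β ((Ei T i).image (tl T)) :=
      sum_congr rfl fun i _ => h6 i
    rw [h7]
    linarith

theorem pf_IL (hEM : T_EM) (hES : T_ES) (hEP : T_EP) (hRM : T_RM) : T_IL := by
  intro r d T k β _ _ _
  have h1 := main T hEM hES hEP hRM β (univ : Finset (Fin r)) k
  rw [card_univ, Fintype.card_fin] at h1
  refine le_trans h1 ?_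
  apply hEM
  intro x y h
  obtain ⟨ha, hb⟩ := Prod.mk.inj h
  refine Prod.ext ha ?_
  apply (RJ_eq T univ x y).2
  intro i _ e he
  have h2 := congrFun hb e
  unfold ZZ at h2
  rw [he] at h2
  exact Option.some.inj h2

end Pool.Agent.H47.SE4IL
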