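import Pool.Agent.H4.SE.Targets

/-!
# Board sae, module P3: a simple path crosses an edge at most once
-/

set_option autoImplicit false

open Finset Equiv
open scoped Classical
open Pool.Agent.H4.SE

namespace Pool.Agent.H47.SE4

theorem pf_P3 (hWA : T_WA) : T_P3 := by
  intro r d T β _ _ σ p j k k' s hred hkk hk' hlb hz hz' hnd
  have hk : k < (T j).length := lt_trans hkk hk'
  have e1 : (T j)[k]? = some ((T j)[k]) := List.getElem?_eq_getElem hk
  have e2 : (T j)[k']? = some ((T j)[k']) := List.getElem?_eq_getElem hk'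
  have l1 : lb T (j, k) = some ((T j)[k]).1 := by
    unfold lb
    show ((T j)[k]?).map Prod.fst = _
    rw [e1]
    rfl
  have l2 : lb T (j, k') = some ((T j)[k']).1 := by
    unfold lb
    show ((T j)[k']?).map Prod.fst = _
    rw [e2]
    rfl
  have s1 : sg T (j, k) = ((T j)[k]).2 := by
    unfold sg
    show ((T j)[k]?).elim true Prod.snd = _
    rw [e1]
    rfl
  have s2 : sg T (j, k') = ((T j)[k']).2 := by
    unfold sg
    show ((T j)[k']?).elim true Prod.snd = _
    rw [e2]
    rfl
  have hi : ((T j)[k]).1 = ((T j)[k']).1 := by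
    rw [l1, l2] at hlb
    exact Option.some.inj hlb
  have a1 : pp σ (T j) (rt T (j, k)) s = p ((T j)[k]).1 := by
    unfold ZZ at hz
    rw [l1] at hz
    have h1 : (pp σ (T j) (rt T (j, k)))⁻¹ (p ((T j)[k]).1) = s := Option.some.inj hz
    rw [← h1]
    exact Equiv.apply_symm_apply _ _
  have a2 : pp σ (T j) (rt T (j, k')) s = p ((T j)[k']).1 := by
    unfold ZZ at hz'
    rw [l2] at hz'
    have h1 : (pp σ (T j) (rt T (j, k')))⁻¹ (p ((T j)[k']).1) = s := Option.some.inj hz'
    rw [← h1]
    exact Equiv.apply_symm_apply _ _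
  have hsuf : ∀ m, ((T j).take m).reverse <:+ (T j).reverse := fun m =>
    List.reverse_suffix.2 (List.take_prefix m (T j))
  have hact : Pool.Agent.H11.SAE.act σ ((T j).take (rt T (j, k))).reverse s
      = Pool.Agent.H11.SAE.act σ ((T j).take (rt T (j, k'))).reverse s := by
    rw [← hWA, ← hWA, a1, a2, hi]
  have hlist := Pool.Agent.H11.SAE.suffix_eq_of_act_eq hnd (hsuf _) (hsuf _) hact
  have hlen := congrArg List.length hlist
  rw [List.length_reverse, List.length_reverse, List.length_take, List.length_take] at hlen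
  have r1 : rt T (j, k) = if ((T j)[k]).2 = true then k else k + 1 := by
    unfold rt
    rw [s1]
  have r2 : rt T (j, k') = if ((T j)[k']).2 = true then k' else k' + 1 := by
    unfold rt
    rw [s2]
  have hchain : (T j).IsChain (fun a b => b.1 = a.1 → b.2 = a.2) := by
    have h1 : (T j).reverse.IsChain (fun a b => a.1 = b.1 → a.2 = b.2) := hred
    rw [List.isChain_reverse] at h1
    exact h1
  rw [r1, r2] at hlen
  split_ifs at hlen with h1 h2 h2
  · omega
  · omega
  · have hkk' : k' = k + 1 := by omega
    subst hkk'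
    have h3 := (List.isChain_iff_getElem.1 hchain) k (by omega) hi.symm
    rw [h2] at h3
    exact h1 h3.symm
  · omega

end Pool.Agent.H47.SE4
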