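import Pool.Agent.H4.SE.Targets

/-!
# Board sae, module RE: only the number of points matters
-/

set_option autoImplicit false

open Finset Equiv
open scoped Classical
open Pool.Agent.H4.SE
open Pool.Agent.H11.SAE (lp act verts)

namespace Pool.Agent.H47.SE4

section conj

variable {r d k : ℕ} {β γ : Type} (e : β ≃ γ)

theorem pc_mul (p q : Perm β) : e.permCongr (p * q) = e.permCongr p * e.permCongr q := by
  ext x
  simp [Equiv.permCongr_apply]

theorem pc_inv (p : Perm β) : e.permCongr p⁻¹ = (e.permCongr p)⁻¹ := by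
  rw [eq_inv_iff_mul_eq_one, ← pc_mul, inv_mul_cancel]
  ext x
  simp [Equiv.permCongr_apply]

theorem pc_one : e.permCongr (1 : Perm β) = 1 := by
  ext x
  simp [Equiv.permCongr_apply]

theorem lp_pc (σ : Fin r → Perm β) (x : Fin r × Bool) :
    lp (fun i => e.permCongr (σ i)) x = e.permCongr (lp σ x) := by
  unfold Pool.Agent.H11.SAE.lp
  by_cases h : x.2 = true
  · rw [if_pos h, if_pos h]
  · rw [if_neg h, if_neg h, pc_inv]

theorem pp_pc (σ : Fin r → Perm β) (T : List (Fin r × Bool)) (k : ℕ) :
    pp (fun i => e.permCongr (σ i)) T k = e.permCongr (pp σ T k) := by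
  induction k with
  | zero =>
    show (1 : Perm γ) = e.permCongr 1
    rw [pc_one]
  | succ k ih =>
    show (match T[k]? with
      | some x => lp (fun i => e.permCongr (σ i)) x
      | none => 1) * pp (fun i => e.permCongr (σ i)) T k
      = e.permCongr ((match T[k]? with
      | some x => lp σ x
      | none => 1) * pp σ T k)
    rw [pc_mul, ih]
    congr 1
    cases T[k]? with
    | none => exact (pc_one e).symm
    | some x => exact lp_pc e σ x

theorem pp_pc_inv (σ : Fin r → Perm β) (T : List (Fin r × Bool)) (k : ℕ) (v : β) :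
    (pp (fun i => e.permCongr (σ i)) T k)⁻¹ (e v) = e ((pp σ T k)⁻¹ v) := by
  rw [pp_pc, ← pc_inv, Equiv.permCongr_apply, Equiv.symm_apply_apply]

/-- transport of the sample space -/
def tr (ω : Om r k β) : Om r k γ := (fun i => e.permCongr (ω.1 i), fun m => e (ω.2 m))

theorem tr_bij : Function.Bijective (tr e : Om r k β → Om r k γ) := by
  constructor
  · rintro ⟨σ, c⟩ ⟨σ', c'⟩ h
    have h1 := congrArg Prod.fst h
    have h2 := congrArg Prod.snd h
    apply Prod.ext
    · funext i
      exact e.permCongr.injective (congrFun h1 i)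
    · funext m
      exact e.injective (congrFun h2 m)
  · rintro ⟨σ, c⟩
    refine ⟨(fun i => e.permCongr.symm (σ i), fun m => e.symm (c m)), ?_⟩
    apply Prod.ext
    · funext i
      exact Equiv.apply_symm_apply _ _
    · funext m
      exact Equiv.apply_symm_apply _ _

variable (T : Fin d → List (Fin r × Bool))

theorem WQ_tr (ω ω' : Om r k β) :
    WQ T (tr e ω) = WQ T (tr e ω') ↔ WQ T ω = WQ T ω' := by
  have hW : ∀ (σ : Fin r → Perm β) (j : Fin d),
      W T (fun i => e.permCongr (σ i)) j = e.permCongr (W T σ j) := fun σ j => pp_pc e σ (T j) _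
  have hP : ∀ (σ : Fin r → Perm β) (v : β) (j : Fin d) (l : ℕ),
      pat T (fun i => e.permCongr (σ i)) (e v) j l = e (pat T σ v j l) := fun σ v j l =>
    pp_pc_inv e σ (T j) l v
  constructor
  · intro h
    have h1 : ∀ j, W T (fun i => e.permCongr (ω.1 i)) j = W T (fun i => e.permCongr (ω'.1 i)) j :=
      fun j => congrFun (congrArg Prod.fst h) j
    have h2 : ∀ m j l, pat T (fun i => e.permCongr (ω.1 i)) (e (ω.2 m)) j l
        = pat T (fun i => e.permCongr (ω'.1 i)) (e (ω'.2 m)) j l :=
      fun m j l => congrFun (congrFun (congrFun (congrArg Prod.snd h) m) j) l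
    apply Prod.ext
    · funext j
      have h3 := h1 j
      rw [hW, hW] at h3
      exact e.permCongr.injective h3
    · funext m j l
      have h3 := h2 m j l
      rw [hP, hP] at h3
      exact e.injective h3
  · intro h
    have h1 : ∀ j, W T ω.1 j = W T ω'.1 j := fun j => congrFun (congrArg Prod.fst h) j
    have h2 : ∀ m j l, pat T ω.1 (ω.2 m) j l = pat T ω'.1 (ω'.2 m) j l :=
      fun m j l => congrFun (congrFun (congrFun (congrArg Prod.snd h) m) j) l
    apply Prod.ext
    · funext j
      show W T (fun i => e.permCongr (ω.1 i)) j = W T (fun i => e.permCongr (ω'.1 i)) j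
      rw [hW, hW, h1]
    · funext m j l
      show pat T (fun i => e.permCongr (ω.1 i)) (e (ω.2 m)) j l
        = pat T (fun i => e.permCongr (ω'.1 i)) (e (ω'.2 m)) j l
      rw [hP, hP, h2]

theorem pos_tr (σ : Fin r → Perm β) (v : β) (a : Option (Fin d × ℕ)) :
    pos T (fun i => e.permCongr (σ i)) (e v) a = e (pos T σ v a) := by
  cases a with
  | none => rfl
  | some a => exact pp_pc_inv e σ (T a.1) a.2 v

end conj

/-- a bijection which preserves the fibres preserves the entropy -/
theorem ent_bij (hEM : T_EM) (hEP : T_EP) {Ω Ω' α α' : Type} [Fintype Ω] [Fintype Ω']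
    (π : Ω' → Ω) (hπ : Function.Bijective π) (f : Ω → α) (g : Ω' → α')
    (h : ∀ x y, f (π x) = f (π y) ↔ g x = g y) : ent g = ent f := by
  have h1 : ent (fun y => f (π y)) = ent f := by
    apply hEP Ω Ω' α π 1 one_pos
    intro x
    rw [Finset.card_eq_one]
    obtain ⟨y, hy⟩ := hπ.2 x
    refine ⟨y, ?_⟩
    ext z
    rw [mem_filter, mem_singleton]
    constructor
    · intro hz
      exact hπ.1 (hz.2.trans hy.symm)
    · rintro rfl
      exact ⟨mem_univ _, hy⟩
  rw [← h1]
  apply le_antisymm
  · exact hEM Ω' α α' (fun y => f (π y)) g (fun x y hxy => (h x y).1 hxy)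
  · exact hEM Ω' α' α g (fun y => f (π y)) (fun x y hxy => (h x y).2 hxy)

theorem pf_RE (hEM : T_EM) (hEP : T_EP) : T_RE := by
  intro r d T k β γ _ _ _ _ e
  have hA : AA T k β = AA T k γ :=
    ent_bij hEM hEP (tr e) (tr_bij e) (fun ω : Om r k γ => WQ T ω) (fun ω : Om r k β => WQ T ω)
      (fun x y => WQ_tr e T x y)
  have hR : ∀ A, rho T k β A = rho T k γ A := by
    intro A
    unfold rho
    rw [hA]
    congr 1
    apply ent_bij hEM hEP (fun x : Om r k β × β => (tr e x.1, e x.2))
    · constructor
      · rintro ⟨ω, v⟩ ⟨ω', v'⟩ h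
        apply Prod.ext
        · exact (tr_bij e).1 (congrArg Prod.fst h)
        · exact e.injective (congrArg Prod.snd h)
      · rintro ⟨ω, v⟩
        obtain ⟨ω', hω'⟩ := (tr_bij e).2 ω
        refine ⟨(ω', e.symm v), ?_⟩
        apply Prod.ext
        · exact hω'
        · exact e.apply_symm_apply v
    · intro x y
      have hp : ∀ (z : Om r k β × β) (a : Option (Fin d × ℕ)),
          pos T (tr e z.1).1 (e z.2) a = e (pos T z.1.1 z.2 a) := fun z a =>
        pos_tr e T z.1.1 z.2 a
      constructor
      · intro h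
        apply Prod.ext
        · exact (WQ_tr e T x.1 y.1).1 (congrArg Prod.fst h)
        · funext a
          have h1 := congrFun (congrArg Prod.snd h) a
          have h2 : pos T (tr e x.1).1 (e x.2) a.1 = pos T (tr e y.1).1 (e y.2) a.1 := h1
          rw [hp, hp] at h2
          exact e.injective h2
      · intro h
        apply Prod.ext
        · exact (WQ_tr e T x.1 y.1).2 (congrArg Prod.fst h)
        · funext a
          have h1 : pos T x.1.1 x.2 a.1 = pos T y.1.1 y.2 a.1 := congrFun (congrArg Prod.snd h) a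
          show pos T (tr e x.1).1 (e x.2) a.1 = pos T (tr e y.1).1 (e y.2) a.1
          rw [hp, hp, h1]
  refine ⟨hA, hR, ?_⟩
  unfold SS
  apply Finset.sum_congr rfl
  intro i _
  exact hR _

end Pool.Agent.H47.SE4
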