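import Pool.Agent.H4.SE.Targets

/-!
# Board sae, module RX: the edges of the wedge
-/

set_option autoImplicit false

open Finset Equiv
open scoped Classical
open Pool.Agent.H4.SE

namespace Pool.Agent.H47.SE4

theorem vt_mem {r d : ℕ} (T : Fin d → List (Fin r × Bool)) (j : Fin d) (k : ℕ)
    (hk : k ≤ (T j).length) : vt T (j, k) ∈ VV T := by
  unfold vt VV
  by_cases h : k = 0 ∨ k = (T j).length
  · rw [if_pos h]
    exact mem_insert_self _ _
  · rw [if_neg h]
    have h0 : k ≠ 0 := fun h1 => h (Or.inl h1)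
    have h1 : k ≠ (T j).length := fun h1 => h (Or.inr h1)
    apply mem_insert_of_mem
    apply mem_image_of_mem
    rw [mem_filter, mem_product, mem_range]
    have h2 : (T j).length ≤ ∑ j, (T j).length :=
      Finset.single_le_sum (f := fun j => (T j).length) (fun _ _ => Nat.zero_le _) (mem_univ j)
    refine ⟨⟨mem_univ _, ?_⟩, ?_, ?_⟩
    · show k < ∑ j, (T j).length
      omega
    · show 0 < k
      omega
    · show k < (T j).length
      omega

theorem pf_RX : T_RX := by
  intro r d T i e he
  have h1 : e ∈ EE T := (mem_filter.1 he).1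
  have h2 : e.2 < (T e.1).length := (mem_filter.1 h1).2
  have h3 : vt T e ∈ VV T := vt_mem T e.1 e.2 h2.le
  have h4 : vt T (e.1, e.2 + 1) ∈ VV T := vt_mem T e.1 (e.2 + 1) h2
  unfold tl hd
  by_cases hs : sg T e = true
  · rw [if_pos hs, if_pos hs]
    exact ⟨h3, h4⟩
  · rw [if_neg hs, if_neg hs]
    exact ⟨h4, h3⟩

end Pool.Agent.H47.SE4
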